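import Pool.Agent.H31.GK.TG2
import Pool.Agent.H63.GA.PA1

/-!
Board ghk, row GHR: averages of translates.
-/

set_option autoImplicit false

namespace Pool.Agent.H80.GHK

open MeasureTheory Pool.Agent.H34.GM Pool.Agent.H34.GZ Pool.Agent.H34.GU Pool.Agent.H34.GA
open Pool.Agent.H31.GK
open Pool.Agent.H63.GA (p_det_ne p_cont_aN p_cont_inv p_int)

instance (m : ℕ) : FirstCountableTopology (Mat m) :=
  inferInstanceAs (FirstCountableTopology (Fin m → Fin m → ℝ))

section

variable {m N : ℕ} [NeZero N] {T : ℕ → Finset (ZM m)} {F : Mat m → VN m N → ℂ} {lam : ℕ → ℂ}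

/-- the integrand is integrable -/
theorem avg_int (hF : HecA m N T F lam) {r : ℝ} (hB : MeasurableSet (Bl m r))
    (hBd : ∀ z ∈ Bl m r, (mt z).det ≠ 0) (hBf : hm m (Bl m r) < ⊤) {c : V m → ℂ} {M : ℝ}
    (hc : Measurable c) (hM : ∀ z, ‖c z‖ ≤ M) {g : Mat m} (hg : g.det ≠ 0) (x : VN m N) :
    Integrable (fun z : V m => c z * F (g * mt z) x) ((hm m).restrict (Bl m r)) := by
  obtain ⟨BF, hBF⟩ := hF.bdd
  have hfm : IsFiniteMeasure ((hm m).restrict (Bl m r)) :=
    ⟨by rwa [Measure.restrict_apply_univ]⟩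
  have hd : ∀ z ∈ Bl m r, (g * mt z).det ≠ 0 := by
    intro z hz
    rw [Matrix.det_mul]
    exact mul_ne_zero hg (hBd z hz)
  refine (integrable_const (M * BF)).mono' ?_ ?_
  · refine hc.aestronglyMeasurable.mul (ContinuousOn.aestronglyMeasurable ?_ hB)
    have h1 : Continuous (fun z : V m => g * mt z) :=
      Continuous.mul continuous_const (continuous_id (X := V m))
    exact (hF.cont x).comp h1.continuousOn hd
  · filter_upwards [ae_restrict_mem hB] with z hz
    rw [norm_mul]
    exact mul_le_mul (hM z) (hBF _ x (hd z hz)) (norm_nonneg _) ((norm_nonneg _).trans (hM z))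

/-- the average of the translates is a Hecke eigenfunction -/
theorem avg_hec (hF : HecA m N T F lam) (hR : RepsZ m T) {r : ℝ}
    (hB : MeasurableSet (Bl m r))
    (hBd : ∀ z ∈ Bl m r, (mt z).det ≠ 0) (hBf : hm m (Bl m r) < ⊤) {c : V m → ℂ} {M : ℝ}
    (hc : Measurable c) (hM : ∀ z, ‖c z‖ ≤ M) :
    HecA m N T (fun g x => ∫ z in Bl m r, c z * F (g * mt z) x ∂(hm m)) lam := by
  obtain ⟨BF, hBF⟩ := hF.bdd
  have hfm : IsFiniteMeasure ((hm m).restrict (Bl m r)) :=
    ⟨by rwa [Measure.restrict_apply_univ]⟩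
  have hd : ∀ g : Mat m, g.det ≠ 0 → ∀ z ∈ Bl m r, (g * mt z).det ≠ 0 := by
    intro g hg z hz
    rw [Matrix.det_mul]
    exact mul_ne_zero hg (hBd z hz)
  have hI := fun (g : Mat m) (hg : g.det ≠ 0) (x : VN m N) =>
    avg_int hF hB hBd hBf hc hM hg x
  constructor
  · intro x
    refine continuousOn_of_dominated (bound := fun _ => M * BF) ?_ ?_ (integrable_const _) ?_
    · intro g hg
      exact (hI g hg x).aestronglyMeasurable
    · intro g hg
      filter_upwards [ae_restrict_mem hB] with z hz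
      rw [norm_mul]
      exact mul_le_mul (hM z) (hBF _ x (hd g hg z hz)) (norm_nonneg _)
        ((norm_nonneg _).trans (hM z))
    · filter_upwards [ae_restrict_mem hB] with z hz
      refine continuousOn_const.mul ?_
      have h1 : Continuous (fun g : Mat m => g * mt z) :=
        Continuous.mul continuous_id continuous_const
      exact (hF.cont x).comp h1.continuousOn fun g hg => hd g hg z hz
  · intro g x hx
    simp only [hF.supp _ x hx, mul_zero, integral_zero]
  · intro γ hγ g x hg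
    refine setIntegral_congr_fun hB fun z hz => ?_
    change c z * F (cR γ * g * mt z) (ac N γ x) = c z * F (g * mt z) x
    rw [Matrix.mul_assoc, hF.auto γ hγ _ x (hd g hg z hz)]
  · intro s hs g x hg
    refine setIntegral_congr_fun hB fun z hz => ?_
    change c z * F (s • g * mt z) x = c z * F (g * mt z) x
    rw [Matrix.smul_mul, hF.scal s hs _ x (hd g hg z hz)]
  · intro n hn g x hg
    have hα : ∀ α ∈ T n, (cR α * g).det ≠ 0 := by
      intro α hα
      have h4 := hR.mem n hn α hα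
      have h5 : α.det ≠ 0 := by
        intro h0
        rw [h0, Int.natAbs_zero] at h4
        omega
      have h6 := RingHom.map_det (Int.castRingHom ℝ) α
      have h7 : (Int.castRingHom ℝ).mapMatrix α = cR α := rfl
      rw [h7] at h6
      rw [Matrix.det_mul, ← h6]
      exact mul_ne_zero (by simpa using h5) hg
    rw [← integral_finsetSum _ fun α hα' => hI _ (hα α hα') _, ← integral_const_mul]
    refine setIntegral_congr_fun hB fun z hz => ?_
    change ∑ α ∈ T n, c z * F (cR α * g * mt z) (ac N α x) =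
      (n : ℂ) ^ (((m : ℂ) - 1) / 2) * lam n * (c z * F (g * mt z) x)
    simp only [Matrix.mul_assoc]
    rw [← Finset.mul_sum, hF.hecke n hn _ x (hd g hg z hz)]
    ring
  · refine ⟨M * BF * (hm m).real (Bl m r), fun g x hg => ?_⟩
    refine norm_setIntegral_le_of_norm_le_const hBf fun z hz => ?_
    rw [norm_mul]
    exact mul_le_mul (hM z) (hBF _ x (hd g hg z hz)) (norm_nonneg _)
      ((norm_nonneg _).trans (hM z))

/-- the convolution of the average -/
theorem avg_rr (hUBD : T_UBD) (hF : HecA m N T F lam) (hm1 : 1 ≤ m) (hsig : SigmaFinite (hm m))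
    (hSh : MeasurableSet (Shell m)) {r : ℝ} (hB : MeasurableSet (Bl m r))
    (hBd : ∀ z ∈ Bl m r, (mt z).det ≠ 0) (hBf : hm m (Bl m r) < ⊤) {c : V m → ℂ} {M : ℝ}
    (hc : Measurable c) (hM : ∀ z, ‖c z‖ ≤ M) {k : Mat m → ℂ} (hk : Tg m k) {g : Mat m}
    (hg : g.det ≠ 0) (x : VN m N) :
    Rr k 1 (fun g x => ∫ z in Bl m r, c z * F (g * mt z) x ∂(hm m)) g x =
      ∫ z in Bl m r, c z * Rr k 1 (trn (mt z) F) g x ∂(hm m) := by
  have := hsig
  obtain ⟨BF, hBF⟩ := hF.bdd
  have hfm : IsFiniteMeasure ((hm m).restrict (Bl m r)) :=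
    ⟨by rwa [Measure.restrict_apply_univ]⟩
  have hsS : ∀ z ∈ Shell m, (mt z).det ≠ 0 := fun z hz => p_det_ne hm1 hz.1
  have hd : ∀ w ∈ Shell m, ∀ z ∈ Bl m r, (g * (mt w)⁻¹ * mt z).det ≠ 0 := by
    intro w hw z hz
    rw [Matrix.det_mul, Matrix.det_mul, Matrix.det_nonsing_inv, Ring.inverse_eq_inv']
    exact mul_ne_zero (mul_ne_zero hg (inv_ne_zero (hsS w hw))) (hBd z hz)
  have hki : Integrable (fun z : V m => k ((1⁻¹ * (aN (mt z))⁻¹) • mt z))
      ((hm m).restrict (Shell m)) := p_int hUBD hm1 hk one_pos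
  have hint : Integrable (Function.uncurry fun w z : V m =>
      k ((1⁻¹ * (aN (mt w))⁻¹) • mt w) * (c z * F (g * (mt w)⁻¹ * mt z) x))
      (((hm m).restrict (Shell m)).prod ((hm m).restrict (Bl m r))) := by
    have h1 : Integrable (fun p : V m × V m => ‖k ((1⁻¹ * (aN (mt p.1))⁻¹) • mt p.1)‖ * (M * BF))
        (((hm m).restrict (Shell m)).prod ((hm m).restrict (Bl m r))) :=
      hki.norm.mul_prod (integrable_const (M * BF))
    refine h1.mono' ?_ ?_
    · have a1 : AEStronglyMeasurable (fun p : V m × V m =>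
          k ((1⁻¹ * (aN (mt p.1))⁻¹) • mt p.1))
          (((hm m).restrict (Shell m)).prod ((hm m).restrict (Bl m r))) :=
        hki.aestronglyMeasurable.comp_fst
      have a2 : AEStronglyMeasurable (fun p : V m × V m => c p.2)
          (((hm m).restrict (Shell m)).prod ((hm m).restrict (Bl m r))) :=
        (hc.comp measurable_snd).aestronglyMeasurable
      have a3 : AEStronglyMeasurable (fun p : V m × V m => F (g * (mt p.1)⁻¹ * mt p.2) x)
          (((hm m).restrict (Shell m)).prod ((hm m).restrict (Bl m r))) := by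
        rw [Measure.prod_restrict]
        refine ContinuousOn.aestronglyMeasurable ?_ (hSh.prod hB)
        have e1 : ContinuousOn (fun p : V m × V m => (mt p.2 : Mat m)) (Shell m ×ˢ Bl m r) :=
          (continuous_snd (X := V m) (Y := V m)).continuousOn
        have e2 : ContinuousOn (fun p : V m × V m => ((mt p.1)⁻¹ : Mat m))
            (Shell m ×ˢ Bl m r) := by
          refine (p_cont_inv m).comp (f := fun p : V m × V m => (mt p.1 : Mat m)) ?_
            (fun p hp => hsS _ hp.1)
          exact (continuous_fst (X := V m) (Y := V m)).continuousOn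
        exact (hF.cont x).comp ((continuousOn_const.mul e2).mul e1)
          (fun p hp => hd _ hp.1 _ hp.2)
      exact a1.mul (a2.mul a3)
    · rw [Measure.prod_restrict]
      filter_upwards [ae_restrict_mem (hSh.prod hB)] with p hp
      change ‖k ((1⁻¹ * (aN (mt p.1))⁻¹) • mt p.1) *
        (c p.2 * F (g * (mt p.1)⁻¹ * mt p.2) x)‖ ≤ _
      rw [norm_mul, norm_mul]
      refine mul_le_mul_of_nonneg_left ?_ (norm_nonneg _)
      exact mul_le_mul (hM _) (hBF _ x (hd _ hp.1 _ hp.2)) (norm_nonneg _)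
        ((norm_nonneg _).trans (hM p.2))
  have h2 : Rr k 1 (fun g x => ∫ z in Bl m r, c z * F (g * mt z) x ∂(hm m)) g x =
      ∫ w in Shell m, ∫ z in Bl m r, k ((1⁻¹ * (aN (mt w))⁻¹) • mt w) *
        (c z * F (g * (mt w)⁻¹ * mt z) x) ∂(hm m) ∂(hm m) := by
    unfold Rr
    refine integral_congr_ae (Filter.Eventually.of_forall fun w => ?_)
    exact (integral_const_mul _ _).symm
  rw [h2, integral_integral_swap hint]
  refine integral_congr_ae (Filter.Eventually.of_forall fun z => ?_)
  change ∫ w in Shell m, k ((1⁻¹ * (aN (mt w))⁻¹) • mt w) *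
    (c z * F (g * (mt w)⁻¹ * mt z) x) ∂(hm m) = c z * Rr k 1 (trn (mt z) F) g x
  unfold Rr trn
  rw [← integral_const_mul]
  refine integral_congr_ae (Filter.Eventually.of_forall fun w => ?_)
  change k ((1⁻¹ * (aN (mt w))⁻¹) • mt w) * (c z * F (g * (mt w)⁻¹ * mt z) x) =
    c z * (k ((1⁻¹ * (aN (mt w))⁻¹) • mt w) * F (g * (mt w)⁻¹ * mt z) x)
  ring

end

/-- **averages of translates** -/
theorem pf_GHR (hUBD : T_UBD) (hMSR : T_MSR) (hBLR : T_BLR) : T_GHR := by
  intro m N _ T D hS r hr0 hr1 F lam hF c M hc hM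
  obtain ⟨-, -, -, -, hsig, hSh, -, -⟩ := hMSR.1 m
  obtain ⟨hB, hBd, hBf, -, -⟩ := hBLR m hS.one_le r hr0 hr1
  refine ⟨avg_hec hF hS.reps hB hBd hBf hc hM, fun Φ hΦ g x hg => ?_⟩
  exact avg_rr hUBD hF hS.one_le hsig hSh hB hBd hBf hc hM hΦ hg x

end Pool.Agent.H80.GHK
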